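import Pool.Agent.Helper51K9.WD.Act

/-!
# The width of the weak containment order of the free actions of a nonamenable group

For every countable nonamenable group the width of the class of free probability measure preserving
actions, preordered by weak containment, is the cardinality of the continuum.

Proof. For `0 < p < 1 / 2` let `a_p` be the action on two copies of the Bernoulli shift, of the measures
`p` and `1 - p`. The Bernoulli shift of a nonamenable group is strongly ergodic, so the measures of the
almost invariant sets of `a_p` are close to `0`, `p`, `1 - p` or `1`, and `a_q` has an invariant set of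
measure `q`; so `a_q` is not weakly contained in `a_p` for `q ≠ p`.
-/

set_option autoImplicit false

namespace Pool.Agent.Results.MP_651bcb_an.WidthContinuum

open MeasureTheory Set
open scoped Cardinal
open Pool.Agent.Helper51K9.WD

/-- `𝒜` is an antichain in the class of the free actions: a set of free actions no two different members
of which are comparable with respect to weak containment. -/
def IsFreeAntichain {Γ X : Type} [Group Γ] [MeasurableSpace X] {μ : Measure X}
    (𝒜 : Set (PmpAction Γ X μ)) : Prop :=
  (∀ a ∈ 𝒜, a.Free) ∧ ∀ a ∈ 𝒜, ∀ b ∈ 𝒜, a ≠ b → ¬ WC a b ∧ ¬ WC b a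

/-- The width of the class of the free actions: the supremum of the cardinalities of antichains. -/
noncomputable def width (Γ X : Type) [Group Γ] [MeasurableSpace X] (μ : Measure X) : Cardinal :=
  sSup {κ : Cardinal | ∃ 𝒜 : Set (PmpAction Γ X μ), IsFreeAntichain 𝒜 ∧ #𝒜 = κ}

/-- Let `Γ` be a countable nonamenable group, and let `(X, μ)` be a standard probability space without
atoms. The width of the class of the free measure preserving actions of `Γ` on `(X, μ)` is the
cardinality of the real numbers: all antichains have at most this cardinality, and there is an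
antichain of this cardinality. -/
theorem result (Γ : Type) [Group Γ] [Countable Γ] (hna : ¬ Amenable Γ) (X : Type)
    [MeasurableSpace X] [StandardBorelSpace X] (μ : Measure X) [IsProbabilityMeasure μ]
    (hμ : ∀ x, μ {x} = 0) :
    width Γ X μ = #ℝ ∧ (∀ 𝒜 : Set (PmpAction Γ X μ), #𝒜 ≤ #ℝ) ∧
      ∃ 𝒜 : Set (PmpAction Γ X μ), IsFreeAntichain 𝒜 ∧ #𝒜 = #ℝ := by
  have : NullSingletonClass μ := ⟨hμ⟩
  rw [Cardinal.mk_real]
  have h1 : ∀ 𝒜 : Set (PmpAction Γ X μ), #𝒜 ≤ 𝔠 := fun 𝒜 =>
    (Cardinal.mk_set_le 𝒜).trans (card_le μ)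
  have h2 : ∃ 𝒜 : Set (PmpAction Γ X μ), IsFreeAntichain 𝒜 ∧ #𝒜 = 𝔠 := by
    obtain ⟨𝒜, hf, ha, hc⟩ := antichain μ hna
    exact ⟨𝒜, ⟨hf, fun a hA b hB hne => ⟨ha a hA b hB hne, ha b hB a hA hne.symm⟩⟩, hc⟩
  refine ⟨le_antisymm ?_ ?_, h1, h2⟩
  · refine csSup_le' ?_
    rintro κ ⟨𝒜, -, rfl⟩
    exact h1 𝒜
  · refine le_csSup ⟨𝔠, ?_⟩ h2
    rintro κ ⟨𝒜, -, rfl⟩
    exact h1 𝒜

end Pool.Agent.Results.MP_651bcb_an.WidthContinuum
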